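import Pool.Agent.H74R3.Metric

/-!
# Every conjugacy class is dense in the space of mixing automorphisms of an infinite measure space

`(X, μ)` is a standard Borel space with a sigma-finite, non-atomic, infinite measure.
Elements of `Aut_∞` are represented by Borel automorphisms `X ≃ᵐ X` preserving `μ`.
-/

open MeasureTheory Set Filter Topology
open scoped ENNReal

namespace Pool.Agent.Results.MP_bfd36a_an.ConjugacyClassDense

variable {X : Type*} [MeasurableSpace X]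

/-- `T` is mixing: `μ (Tⁿ A ∩ B) → 0` for all `A, B` of finite measure. -/
def Mixing (μ : Measure X) (T : X ≃ᵐ X) : Prop :=
  ∀ A B : Set X, MeasurableSet A → MeasurableSet B → μ A < ∞ → μ B < ∞ →
    Tendsto (fun n : ℕ => μ ((T^[n]) '' A ∩ B)) atTop (𝓝 0)

/-- `Mix_∞`: the mixing, invertible, measure preserving transformations. -/
def Mix (μ : Measure X) : Type _ :=
  {T : X ≃ᵐ X // MeasurePreserving T μ μ ∧ Mixing μ T}

/-- `ρ_∞(S,T) = ∑ 2^{-i} (μ(S A_i Δ T A_i) + μ(S⁻¹ A_i Δ T⁻¹ A_i))`, indices starting at `0`. -/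
noncomputable def rhoInf (μ : Measure X) (A : ℕ → Set X) (S T : X ≃ᵐ X) : ℝ≥0∞ :=
  ∑' i : ℕ, (1 / 2 : ℝ≥0∞) ^ (i + 1) *
    (μ (symmDiff (S '' A i) (T '' A i)) + μ (symmDiff (S.symm '' A i) (T.symm '' A i)))

/-- `d_w(Sⁿ,Tⁿ) = ∑ 2^{-i-j} |μ(Sⁿ A_i ∩ A_j) - μ(Tⁿ A_i ∩ A_j)|`. -/
noncomputable def dWeak (μ : Measure X) (A : ℕ → Set X) (n : ℕ) (S T : X ≃ᵐ X) : ℝ≥0∞ :=
  ∑' i : ℕ, ∑' j : ℕ, (1 / 2 : ℝ≥0∞) ^ (i + 1) * (1 / 2 : ℝ≥0∞) ^ (j + 1) *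
    ENNReal.ofReal |(μ ((S^[n] '' A i) ∩ A j)).toReal - (μ ((T^[n] '' A i) ∩ A j)).toReal|

/-- `r_∞(S,T) = ρ_∞(S,T) + sup_{n>0} d_w(Sⁿ,Tⁿ)`. -/
noncomputable def rInf (μ : Measure X) (A : ℕ → Set X) (S T : X ≃ᵐ X) : ℝ≥0∞ :=
  rhoInf μ A S T + ⨆ n : ℕ, ⨆ (_ : 0 < n), dWeak μ A n S T

/-- `{R⁻¹ T R : R ∈ Aut_∞}` as a subset of `Mix_∞`. -/
def conjClass (μ : Measure X) (T : Mix μ) : Set (Mix μ) :=
  {T' | ∃ R : X ≃ᵐ X, MeasurePreserving R μ μ ∧ ∀ x, T'.1 x = R.symm (T.1 (R x))}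

/-- Every conjugacy class is dense in `(Mix_∞, r_∞)`. -/
theorem result [StandardBorelSpace X] (μ : Measure X) [SigmaFinite μ]
    -- `μ` is non-atomic
    (hna : ∀ s : Set X, MeasurableSet s → 0 < μ s → ∃ t ⊆ s, MeasurableSet t ∧ 0 < μ t ∧ μ t < μ s)
    -- `μ` is infinite
    (hinf : μ univ = ∞)
    -- the sequence `A_i` of sets of finite measure, dense among the sets of finite measure
    (A : ℕ → Set X) (hA : ∀ i, MeasurableSet (A i)) (hAfin : ∀ i, μ (A i) < ∞)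
    (_hdense : ∀ B : Set X, MeasurableSet B → μ B < ∞ → ∀ ε : ℝ≥0∞, 0 < ε →
      ∃ i, μ (symmDiff (A i) B) < ε)
    -- `ρ_∞` is a (finite valued) metric on `Aut_∞`
    (hmetric : ∀ S T : X ≃ᵐ X, MeasurePreserving S μ μ → MeasurePreserving T μ μ →
      rhoInf μ A S T < ∞)
    (T : Mix μ) :
    ∀ (S : Mix μ) (ε : ℝ≥0∞), 0 < ε → ∃ T' ∈ conjClass μ T, rInf μ A S.1 T'.1 < ε := by
  intro S ε hε
  have hns : NullSingletonClass μ := by
    refine ⟨fun x => ?_⟩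
    by_contra hcon
    obtain ⟨t, ht, _, ht1, ht2⟩ := hna {x} (measurableSet_singleton x) (pos_iff_ne_zero.2 hcon)
    rcases subset_singleton_iff_eq.1 ht with h | h
    · rw [h, measure_empty] at ht1
      exact lt_irrefl _ ht1
    · rw [h] at ht2
      exact lt_irrefl _ ht2
  have hsum := H74R3.summable_of_metric (μ := μ) hinf A hA hAfin hmetric
  obtain ⟨R, hR, hRε⟩ := H74R3.main_sum hinf A hA hAfin hsum S.2.1 T.2.1 S.2.2 T.2.2 hε
  refine ⟨⟨H74R3.conjBy R T.1, H74R3.mp_conjBy hR T.2.1,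
    H74R3.IsMixing.conj hR T.2.1 T.2.2⟩, ⟨R, hR, fun x => rfl⟩, hRε⟩

end Pool.Agent.Results.MP_bfd36a_an.ConjugacyClassDense
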